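import Pool.Agent.H9.SE.TarK

/-! MP_eaeaf5_lc, module KP: all conditions on the coded model are closed. -/

open Ordinal Order Set
open scoped ZFSet

namespace SE

open SF CAA

theorem kp_cd (φ : Fml) : Tm ZFm (fun _ _ => cd φ) := by
  induction φ with
  | mem i j => exact Tm.pair (Tm.nS 0) (Tm.pair (Tm.nS i) (Tm.nS j))
  | eq i j => exact Tm.pair (Tm.nS 1) (Tm.pair (Tm.nS i) (Tm.nS j))
  | prd i => exact Tm.pair (Tm.nS 2) (Tm.nS i)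
  | neg φ ih => exact Tm.pair (Tm.nS 3) ih
  | and φ ψ ih1 ih2 => exact Tm.pair (Tm.nS 4) (Tm.pair ih1 ih2)
  | ex φ ih => exact Tm.pair (Tm.nS 5) ih

theorem kp_cdhf (hAA : T_AA) (φ : Fml) : cd φ ∈ hf := by
  obtain ⟨-, hn, -, hp, -⟩ := hAA
  induction φ with
  | mem i j => exact hp _ (hn 0) _ (hp _ (hn i) _ (hn j))
  | eq i j => exact hp _ (hn 1) _ (hp _ (hn i) _ (hn j))
  | prd i => exact hp _ (hn 2) _ (hn i)
  | neg φ ih => exact hp _ (hn 3) _ ih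
  | and φ ψ ih1 ih2 => exact hp _ (hn 4) _ (hp _ ih1 _ ih2)
  | ex φ ih => exact hp _ (hn 5) _ ih

theorem t_kp (hAA : T_AA) (h1 : T_KP1) (h2 : T_KP2) (h3 : T_KP3) (hH1 : T_KH1) (hH2 : T_KH2) :
    T_KP := by
  intro φ
  have hAA' := hAA
  obtain ⟨-, hn, -, hp, -⟩ := hAA'
  obtain ⟨hand, -, -, -, -, hval, -⟩ := hH1
  have h0 : (∅ : V) ∈ hf := by
    have := hn 0
    rwa [nS_zero] at this
  have hk : TmH (fun _ => ky 0 (ZFSet.pair (cd φ) (pl ∅ []))) := by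
    refine ⟨?_, fun v _ => ?_⟩
    · exact Tm.pair (Tm.nS 0) (Tm.pair (kp_cd φ) (Tm.pair Tm.empty Tm.empty))
    · exact hp _ (hn 0) _ (hp _ (kp_cdhf hAA φ) _ (hp _ h0 _ h0))
  have hb : TmH (fun _ => nS 1) := ⟨Tm.nS 1, fun _ _ => hn 1⟩
  have h4 := hval _ _ hk hb
  refine hH2.2.2 _ _ (hand _ _ h1 (hand _ _ h2 (hand _ _ h3 h4))) fun F v _ _ => ?_
  exact ⟨fun h => ⟨h.1, h.2.1, h.2.2.1, h.2.2.2⟩, fun h => ⟨h.a, h.b, h.c, h.d⟩⟩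

end SE
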