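import Pool.Agent.H45.SE.TarT

/-! MP_eaeaf5_lc, module TA: definability of the copies. -/

open Ordinal Order Set
open scoped ZFSet

namespace SE

open SF

section ta

variable {a b c d e f g : (V → Prop) → (ℕ → V) → V}

theorem ta_at4 {F : V → V → V → V → V} (hF : Tm ZFm (fun _ v => F (v 0) (v 1) (v 2) (v 3)))
    (ha : Tm ZFm a) (hb : Tm ZFm b) (hc : Tm ZFm c) (hd : Tm ZFm d) :
    Tm ZFm (fun M v => F (a M v) (b M v) (c M v) (d M v)) :=
  hF.comp (args [a, b, c, d]) (tm_args _ (by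
    intro x hx; simp only [List.mem_cons, List.not_mem_nil, or_false] at hx
    rcases hx with rfl | rfl | rfl | rfl <;> assumption))

theorem ta_at6 {F : V → V → V → V → V → V → V}
    (hF : Tm ZFm (fun _ v => F (v 0) (v 1) (v 2) (v 3) (v 4) (v 5)))
    (ha : Tm ZFm a) (hb : Tm ZFm b) (hc : Tm ZFm c) (hd : Tm ZFm d) (he : Tm ZFm e)
    (hf : Tm ZFm f) :
    Tm ZFm (fun M v => F (a M v) (b M v) (c M v) (d M v) (e M v) (f M v)) :=
  hF.comp (args [a, b, c, d, e, f]) (tm_args _ (by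
    intro x hx; simp only [List.mem_cons, List.not_mem_nil, or_false] at hx
    rcases hx with rfl | rfl | rfl | rfl | rfl | rfl <;> assumption))

theorem ta_at7 {F : V → V → V → V → V → V → V → V}
    (hF : Tm ZFm (fun _ v => F (v 0) (v 1) (v 2) (v 3) (v 4) (v 5) (v 6)))
    (ha : Tm ZFm a) (hb : Tm ZFm b) (hc : Tm ZFm c) (hd : Tm ZFm d) (he : Tm ZFm e)
    (hf : Tm ZFm f) (hg : Tm ZFm g) :
    Tm ZFm (fun M v => F (a M v) (b M v) (c M v) (d M v) (e M v) (f M v) (g M v)) :=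
  hF.comp (args [a, b, c, d, e, f, g]) (tm_args _ (by
    intro x hx; simp only [List.mem_cons, List.not_mem_nil, or_false] at hx
    rcases hx with rfl | rfl | rfl | rfl | rfl | rfl | rfl <;> assumption))

end ta

theorem ta_cps (hBBa : T_BBa) (hBBc : T_BBc) :
    Tm ZFm (fun _ v => cps (v 0) (v 1) (v 2) (v 3) (v 4) (v 5) (v 6) (v 7)) := by
  obtain ⟨hrst, -, -, -, hlS, hlY, hlZ, -, -, hlab, -⟩ := hBBa
  obtain ⟨-, -, -, him, -, -, -, hknm, htrn, -⟩ := hBBc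
  unfold cps
  have v (i : ℕ) : Tm ZFm (fun _ v => v i) := Tm.var i
  have hS : Tm ZFm (fun _ v => lS (v 7)) := Tm.at1 (F := fun _ x => lS x) hlS (v 7)
  have hY : Tm ZFm (fun _ v => lY (v 7)) := Tm.at1 (F := fun _ x => lY x) hlY (v 7)
  have hZ : Tm ZFm (fun _ v => lZ (v 7)) := Tm.at1 (F := fun _ x => lZ x) hlZ (v 7)
  have hI : Tm ZFm (fun _ v => im (v 6) (lS (v 7))) :=
    Tm.at2 (F := fun _ x y => im x y) him (v 6) hS
  have hr : Tm ZFm (fun _ v => rst (lS (v 7)) (v 4)) :=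
    Tm.at2 (F := fun _ x y => rst x y) hrst hS (v 4)
  have hk : Tm ZFm (fun _ v => knm (v 0) (im (v 6) (lS (v 7))) 0) :=
    Tm.at2 (F := fun _ x y => knm x y 0) (hknm 0) (v 0) hI
  have hty : Tm ZFm (fun _ v => trn (v 0) (v 6) (rst (lS (v 7)) (v 4)) (lS (v 7))
      (im (v 6) (lS (v 7))) (lY (v 7))) := ta_at6 (F := trn) htrn (v 0) (v 6) hr hS hI hY
  have htz : Tm ZFm (fun _ v => trn (v 0) (v 6) (rst (lS (v 7)) (v 4)) (lS (v 7))
      (im (v 6) (lS (v 7))) (lZ (v 7))) := ta_at6 (F := trn) htrn (v 0) (v 6) hr hS hI hZ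
  exact Tm.sel (Dfb.mem (v 7) (v 3)) (Tm.app (v 2) (v 7))
    (ta_at7 (F := lab) hlab (Tm.nS 0) (Tm.pair (v 1) (v 7)) hI hty
      (Tm.sel (Dfb.eq (v 5) Tm.empty) hk htz) hk hk)

/-- the recursion variable first -/
theorem ta_cpy (hBBa : T_BBa) (hBBc : T_BBc) :
    Tm ZFm (fun _ v => cpy (v 1) (v 2) (v 3) (v 4) (v 5) (v 6) (v 0)) := by
  have hps := ta_cps hBBa hBBc
  obtain ⟨-, -, -, -, hlS, -⟩ := hBBa
  have hΦ : Tm ZFm (fun _ w => cps (w 2) (w 3) (w 4) (w 5) (w 6) (w 7) (w 0) (w 1)) :=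
    hps.rn (fun i => match i with
      | 0 => 2
      | 1 => 3
      | 2 => 4
      | 3 => 5
      | 4 => 6
      | 5 => 7
      | 6 => 0
      | 7 => 1
      | n + 8 => n + 8)
  refine tm_recu (ext := fun _ v => lS (v 0))
    (Φ := fun _ w => cps (w 2) (w 3) (w 4) (w 5) (w 6) (w 7) (w 0) (w 1)) ZFSet.rank hlS hΦ ?_ ?_
  · intro M k v hv y hy
    exact TT.rank_lS_lt hy
  · intro M k v hv
    rw [cpy_eq]
    rfl

theorem t_ta (hBBa : T_BBa) (hBBc : T_BBc) : T_TA := by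
  have hy := ta_cpy hBBa hBBc
  refine ⟨ta_cps hBBa hBBc, ?_, ?_, ?_, ?_, ?_⟩
  · exact hy.rn (fun i => match i with
      | 0 => 6
      | n + 1 => n)
  · exact Tm.resS (g := fun _ v => cpy (v 1) (v 2) (v 3) (v 4) (v 5) (v 6) (v 0)) (Tm.var 6) hy
  · exact Tm.image (g := fun _ v => cpy (v 1) (v 2) (v 3) (v 4) (v 5) (v 6) (v 0)) (Tm.var 6) hy
  · obtain ⟨-, -, -, hlG, -⟩ := hBBa
    have h1 : Tm ZFm (fun _ v => lG (v 0)) := hlG
    have h2 : Dfb ZFm (fun _ v => ¬ (IsPr (lG (v 0)) ∧ fst (lG (v 0)) = v 1)) :=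
      ((Dfb.isPr h1).and (Dfb.eq (Tm.fst h1) (Tm.var 1))).not
    refine (Dfb.ball ktr_zfm (Tm.var 1) h2).congr fun M k v hv => ?_
    unfold Fre
    refine forall_congr' fun j => imp_congr_right fun _ => ?_
    show ¬ (IsPr (lG j) ∧ fst (lG j) = v 0) ↔ ∀ x, lG j ≠ ZFSet.pair (v 0) x
    constructor
    · intro h x hx
      apply h
      rw [hx]
      exact ⟨⟨_, _, rfl⟩, fst_pair _ _⟩
    · rintro h ⟨⟨x, y, hxy⟩, hf⟩
      rw [hxy, fst_pair] at hf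
      exact h y (by rw [hxy, hf])
  · exact Tm.resS (g := fun _ v => v 0) (Tm.var 0) (Tm.var 0)

end SE
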