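import Pool.Agent.H45.SE.TarT

/-! MP_eaeaf5_lc, module TX: free tags. -/

open Ordinal Order Set
open scoped ZFSet

namespace SE

open SF

theorem t_tx : T_TX := by
  refine ⟨fun X j hj x h => ?_, fun g X Y h hX j hj x => h j (hX hj) x⟩
  have h1 : X.rank < (lG j).rank := by
    rw [h]
    exact rank_lt_pair_left X x
  have h2 : (lG j).rank ≤ j.rank := TT.rank_lG_le j
  have h3 : j.rank < X.rank := ZFSet.rank_lt_of_mem hj
  exact absurd (h1.trans_le (h2.trans h3.le)) (lt_irrefl _)

end SE
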